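import Mathlib
import Pool.Agent.Helper999.Sq3.Growth
set_option autoImplicit false

/-!
# Many affine subspaces in dense subsets of `𝔽₃ⁿ`

A subset of density `3^(-s)` of `𝔽₃ⁿ` contains a proportion `3^(-Ed K d s)` of all parametrised
`d`-dimensional affine subspaces, with `Ed K d s + 1 ≤ (3K)^d (s+1)` for an absolute constant `K`.
The case `d = 1` is the cap set theorem.
-/

namespace Pool.Agent.H255.VSR

open Finset Pool.Agent.Helper999.Sq3

/-- the points `x` of `A` with `x + h` and `x - h` in `A` -/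
def cut {n : ℕ} (A : Finset (Fin n → ZMod 3)) (h : Fin n → ZMod 3) : Finset (Fin n → ZMod 3) :=
  univ.filter (fun x => x ∈ A ∧ x + h ∈ A ∧ x - h ∈ A)

theorem lines : ∃ K : ℕ, 1 ≤ K ∧ ∀ (s n : ℕ) (A : Finset (Fin n → ZMod 3)),
    3 ^ n ≤ 3 ^ s * A.card → 3 ^ (2 * n) * 3 ≤ 3 ^ (K * (s + 1)) * ∑ h, (cut A h).card := by
  classical
  obtain ⟨ρ, hρ1, hρ2, hcap⟩ := capP 3 (by norm_num)
  obtain ⟨M, hM⟩ := exists_M (p := 3) (by norm_num) hρ1 hρ2
  refine ⟨M + 2, by omega, fun a n A hA => ?_⟩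
  set m := M * (a + 1) with hm
  set c : ℕ := ⌊3 * ρ ^ m⌋₊ with hcdef
  have hρ0 : 0 ≤ 3 * ρ ^ m := by positivity
  have hc : 2 * 3 ^ a * c ≤ 3 ^ m := by
    have h1 : (c : ℝ) ≤ 3 * ρ ^ m := Nat.floor_le hρ0
    have h2 := hM a
    have h3 : (2 * 3 ^ a * c : ℝ) ≤ 3 ^ m := by
      calc (2 * 3 ^ a * c : ℝ) ≤ 2 * 3 ^ a * (3 * ρ ^ m) := by
            apply mul_le_mul_of_nonneg_left h1 (by positivity)
        _ = 6 * ((3 : ℕ) : ℝ) ^ a * ρ ^ (M * (a + 1)) := by rw [hm]; push_cast; ring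
        _ ≤ _ := by simpa [hm] using h2
    exact_mod_cast h3
  have hsup := supersatP 3 n m c A (fun S hS => Nat.le_floor (by simpa using hcap m S hS))
  set T := ((Finset.univ : Finset ((Fin n → ZMod 3) × (Fin n → ZMod 3))).filter
          (fun q => q.1 ∈ A ∧ q.1 + q.2 ∈ A ∧ q.1 - q.2 ∈ A)).card with hT
  have hTN : T = ∑ h, (cut A h).card := by
    rw [hT]
    simp only [cut, Finset.card_filter, Fintype.sum_prod_type_right]
  rw [← hTN]
  have h1 : 3 ^ (2 * n) ≤ 2 * 3 ^ (a + m) * T := by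
    have e1 : 3 ^ (2 * n) * 3 ^ m ≤ 3 ^ a * (3 ^ n * 3 ^ m * A.card) := by
      calc 3 ^ (2 * n) * 3 ^ m = 3 ^ n * 3 ^ m * 3 ^ n := by ring
        _ ≤ 3 ^ n * 3 ^ m * (3 ^ a * A.card) := Nat.mul_le_mul_left _ hA
        _ = _ := by ring
    have e2 := e1.trans (Nat.mul_le_mul_left (3 ^ a) hsup)
    have e3 : 3 ^ (2 * n) * (2 * 3 ^ a * c) ≤ 3 ^ (2 * n) * 3 ^ m := Nat.mul_le_mul_left _ hc
    have e4 : 3 ^ a * (3 ^ (2 * m) * T + 3 ^ (2 * n) * c) =
        3 ^ m * (3 ^ (a + m) * T) + 3 ^ (2 * n) * 3 ^ a * c := by ring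
    rw [e4] at e2
    have e5 : 3 ^ (2 * n) * 3 ^ m ≤ 3 ^ m * (2 * 3 ^ (a + m) * T) := by nlinarith
    have e6 : 3 ^ m * 3 ^ (2 * n) ≤ 3 ^ m * (2 * 3 ^ (a + m) * T) := by linarith
    exact Nat.le_of_mul_le_mul_left e6 (pow_pos (by norm_num) m)
  have h2 : 3 ^ (a + m + 2) ≤ 3 ^ ((M + 2) * (a + 1)) := by
    apply Nat.pow_le_pow_right (by norm_num)
    rw [hm]; nlinarith
  calc 3 ^ (2 * n) * 3 ≤ 2 * 3 ^ (a + m) * T * 3 := Nat.mul_le_mul_right _ h1
    _ ≤ 3 ^ (a + m + 2) * T := by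
        have : 3 ^ (a + m + 2) = 9 * 3 ^ (a + m) := by ring
        rw [this]; nlinarith [Nat.zero_le (3 ^ (a + m) * T)]
    _ ≤ _ := Nat.mul_le_mul_right _ h2

/-- the number of parametrised `d`-dimensional affine subspaces inside `A` -/
def F {n : ℕ} (d : ℕ) (A : Finset (Fin n → ZMod 3)) : ℕ :=
  ∑ a : Fin n → ZMod 3, ∑ b : Fin d → Fin n → ZMod 3,
    if (∀ ε : Fin d → ZMod 3, a + ∑ i, ε i • b i ∈ A) then 1 else 0

theorem F_zero {n : ℕ} (A : Finset (Fin n → ZMod 3)) : F 0 A = A.card := by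
  simp [F]

theorem z3 : ∀ z : ZMod 3, z = 0 ∨ z = 1 ∨ z = -1 := by decide

theorem flat_cons {n d : ℕ} (A : Finset (Fin n → ZMod 3)) (a h : Fin n → ZMod 3)
    (b : Fin d → Fin n → ZMod 3) :
    (∀ ε : Fin (d + 1) → ZMod 3, a + ∑ i, ε i • (Fin.cons h b : Fin (d + 1) → Fin n → ZMod 3) i ∈ A) ↔
      ∀ ε : Fin d → ZMod 3, a + ∑ i, ε i • b i ∈ cut A h := by
  have key : ∀ (z : ZMod 3) (ε : Fin d → ZMod 3),
      a + ∑ i, (Fin.cons z ε : Fin (d + 1) → ZMod 3) i •
        (Fin.cons h b : Fin (d + 1) → Fin n → ZMod 3) i = a + ∑ i, ε i • b i + z • h := by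
    intro z ε
    rw [Fin.sum_univ_succ]
    simp only [Fin.cons_zero, Fin.cons_succ]
    abel
  constructor
  · intro H ε
    simp only [cut, mem_filter, mem_univ, true_and]
    refine ⟨?_, ?_, ?_⟩
    · have := H (Fin.cons 0 ε)
      rw [key] at this
      simpa using this
    · have := H (Fin.cons 1 ε)
      rw [key] at this
      simpa using this
    · have := H (Fin.cons (-1) ε)
      rw [key] at this
      simpa [sub_eq_add_neg] using this
  · intro H ε
    have h1 : ε = Fin.cons (ε 0) (Fin.tail ε) := (Fin.cons_self_tail ε).symm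
    rw [h1, key]
    have h2 := H (Fin.tail ε)
    simp only [cut, mem_filter, mem_univ, true_and] at h2
    rcases z3 (ε 0) with h | h | h
    · rw [h]; simpa using h2.1
    · rw [h]; simpa using h2.2.1
    · rw [h]; simpa [sub_eq_add_neg] using h2.2.2

theorem F_succ {n d : ℕ} (A : Finset (Fin n → ZMod 3)) :
    F (d + 1) A = ∑ h, F d (cut A h) := by
  unfold F
  rw [Finset.sum_comm (f := fun h a => ∑ b : Fin d → Fin n → ZMod 3,
    if (∀ ε : Fin d → ZMod 3, a + ∑ i, ε i • b i ∈ cut A h) then 1 else 0)]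
  refine Finset.sum_congr rfl fun a _ => ?_
  rw [← (Fin.consEquiv (fun _ : Fin (d + 1) => Fin n → ZMod 3)).sum_comp, Fintype.sum_prod_type]
  refine Finset.sum_congr rfl fun h _ => Finset.sum_congr rfl fun b _ => ?_
  exact if_congr (flat_cons A a h b) rfl rfl

/-- exponents for the supersaturation of `d`-dimensional flats -/
def Ed (K : ℕ) : ℕ → ℕ → ℕ
  | 0, s => s
  | d + 1, s => K * (s + 1) + Ed K d (K * (s + 1))

theorem Ed_bound (K : ℕ) (hK : 1 ≤ K) (d s : ℕ) : Ed K d s + 1 ≤ (3 * K) ^ d * (s + 1) := by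
  induction d generalizing s with
  | zero => simp [Ed]
  | succ d ih =>
    have h1 := ih (K * (s + 1))
    have h2 : 1 ≤ (3 * K) ^ d := Nat.one_le_pow _ _ (by omega)
    have h3 : 1 ≤ K * (s + 1) := Nat.mul_pos hK (by omega)
    have h4 : (3 * K) ^ d * (K * (s + 1) + 1) ≤ (3 * K) ^ d * (2 * (K * (s + 1))) :=
      Nat.mul_le_mul_left _ (by omega)
    have h5 : K * (s + 1) ≤ (3 * K) ^ d * (K * (s + 1)) := Nat.le_mul_of_pos_left _ h2
    calc Ed K (d + 1) s + 1 = K * (s + 1) + (Ed K d (K * (s + 1)) + 1) := by simp [Ed]; ring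
      _ ≤ (3 * K) ^ d * (K * (s + 1)) + (3 * K) ^ d * (2 * (K * (s + 1))) := by omega
      _ = _ := by ring

theorem flats (K : ℕ) (hK : ∀ (s n : ℕ) (A : Finset (Fin n → ZMod 3)),
    3 ^ n ≤ 3 ^ s * A.card → 3 ^ (2 * n) * 3 ≤ 3 ^ (K * (s + 1)) * ∑ h, (cut A h).card)
    (n d s : ℕ) (A : Finset (Fin n → ZMod 3)) (hA : 3 ^ n ≤ 3 ^ s * A.card) :
    3 ^ (n * (d + 1)) ≤ 3 ^ (Ed K d s) * F d A := by
  classical
  induction d generalizing s A with
  | zero => simpa [Ed, F_zero] using hA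
  | succ d ih =>
    set e := K * (s + 1) with he
    have h1 := hK s n A hA
    rw [← he] at h1
    set good : Finset (Fin n → ZMod 3) := univ.filter (fun h => 3 ^ n ≤ 3 ^ e * (cut A h).card)
      with hgood
    have hcard : Fintype.card (Fin n → ZMod 3) = 3 ^ n := by simp [ZMod.card]
    have h2 : 3 ^ e * ∑ h, (cut A h).card ≤ good.card * 3 ^ e * 3 ^ n + 3 ^ n * 3 ^ n := by
      rw [Finset.mul_sum, ← Finset.sum_filter_add_sum_filter_not univ
        (fun h => 3 ^ n ≤ 3 ^ e * (cut A h).card)]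
      apply Nat.add_le_add
      · calc ∑ h ∈ good, 3 ^ e * (cut A h).card ≤ ∑ h ∈ good, 3 ^ e * 3 ^ n := by
              apply Finset.sum_le_sum
              intro h _
              apply Nat.mul_le_mul_left
              rw [← hcard]; exact Finset.card_le_univ _
          _ = _ := by rw [Finset.sum_const, smul_eq_mul]; ring
      · calc ∑ h ∈ univ.filter (fun h => ¬ 3 ^ n ≤ 3 ^ e * (cut A h).card), 3 ^ e * (cut A h).card
            ≤ ∑ h ∈ univ.filter (fun h => ¬ 3 ^ n ≤ 3 ^ e * (cut A h).card), 3 ^ n := by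
              apply Finset.sum_le_sum
              intro h hh
              exact (not_le.1 (Finset.mem_filter.1 hh).2).le
          _ ≤ _ := by
              rw [Finset.sum_const, smul_eq_mul]
              apply Nat.mul_le_mul_right
              rw [← hcard]; exact Finset.card_le_univ _
    have h3 : 3 ^ n ≤ good.card * 3 ^ e := by
      have e1 : 3 ^ (2 * n) = 3 ^ n * 3 ^ n := by ring
      rw [e1] at h1
      have e2 : 3 ^ n * 3 ^ n ≤ good.card * 3 ^ e * 3 ^ n := by nlinarith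
      exact Nat.le_of_mul_le_mul_right e2 (pow_pos (by norm_num) n)
    have h4 : good.card * 3 ^ (n * (d + 1)) ≤ 3 ^ (Ed K d e) * F (d + 1) A := by
      rw [F_succ, Finset.mul_sum]
      calc good.card * 3 ^ (n * (d + 1)) = ∑ _h ∈ good, 3 ^ (n * (d + 1)) := by
            rw [Finset.sum_const, smul_eq_mul]
        _ ≤ ∑ h ∈ good, 3 ^ (Ed K d e) * F d (cut A h) :=
            Finset.sum_le_sum fun h hh => ih e (cut A h) (Finset.mem_filter.1 hh).2
        _ ≤ _ := Finset.sum_le_sum_of_subset (Finset.subset_univ _)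
    calc 3 ^ (n * (d + 1 + 1)) = 3 ^ n * 3 ^ (n * (d + 1)) := by ring
      _ ≤ good.card * 3 ^ e * 3 ^ (n * (d + 1)) := Nat.mul_le_mul_right _ h3
      _ = 3 ^ e * (good.card * 3 ^ (n * (d + 1))) := by ring
      _ ≤ 3 ^ e * (3 ^ (Ed K d e) * F (d + 1) A) := Nat.mul_le_mul_left _ h4
      _ = 3 ^ (Ed K (d + 1) s) * F (d + 1) A := by rw [Ed, ← he, pow_add]; ring

end Pool.Agent.H255.VSR
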