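import Mathlib
import Pool.Agent.H255.VSR.Flats
set_option autoImplicit false

/-!
# One step of the colour-by-colour argument
-/

namespace Pool.Agent.H255.VSR

open Finset Pool.Agent.Helper999.Sq3

/-- there is a `t`-dimensional subspace all of whose nonzero vectors have one colour -/
def Mono {n k : ℕ} (t : ℕ) (c : (Fin n → ZMod 3) → Fin k) : Prop :=
  ∃ W : Submodule (ZMod 3) (Fin n → ZMod 3), Module.finrank (ZMod 3) W = t ∧
    ∃ κ : Fin k, ∀ w ∈ W, w ≠ 0 → c w = κ

/-- for each colour of `X` some translate of `A` lies in that colour class -/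
def State {n k : ℕ} (c : (Fin n → ZMod 3) → Fin k) (X : Finset (Fin k))
    (A : Finset (Fin n → ZMod 3)) : Prop :=
  ∀ κ ∈ X, ∃ x, ∀ a ∈ A, x + a ≠ 0 ∧ c (x + a) = κ

/-- the linear map with prescribed images of the unit vectors -/
def lc {n d : ℕ} (b : Fin d → Fin n → ZMod 3) : (Fin d → ZMod 3) →ₗ[ZMod 3] (Fin n → ZMod 3) where
  toFun := fun ε => ∑ i, ε i • b i
  map_add' := fun y y' => by simp [add_smul, Finset.sum_add_distrib]
  map_smul' := fun r y => by simp [Finset.smul_sum, smul_smul]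

theorem struct {n k t d : ℕ} (ht : 1 ≤ t) (c : (Fin n → ZMod 3) → Fin k)
    (hc : ∀ v, c (-v) = c v) (hno : ¬ Mono (t + 1) c)
    (IH : ∀ c' : (Fin d → ZMod 3) → Fin k, (∀ v, c' (-v) = c' v) → Mono t c')
    (X : Finset (Fin k)) (A : Finset (Fin n → ZMod 3)) (hS : State c X A)
    (a : Fin n → ZMod 3) (b : Fin d → Fin n → ZMod 3)
    (hab : ∀ ε : Fin d → ZMod 3, a + ∑ i, ε i • b i ∈ A) :
    ∃ ε : Fin d → ZMod 3, ε ≠ 0 ∧ (∑ i, ε i • b i = 0 ∨ c (∑ i, ε i • b i) ∉ X) := by
  classical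
  by_contra hcon
  push Not at hcon
  have hφ : ∀ ε, lc b ε = ∑ i, ε i • b i := fun _ => rfl
  have hinj : Function.Injective (lc b) := by
    rw [injective_iff_map_eq_zero]
    intro ε hε
    by_contra h0
    exact (hcon ε h0).1 hε
  obtain ⟨U, hU, κ, hκ⟩ := IH (fun ε => c (lc b ε)) (fun v => by rw [map_neg, hc])
  have hUne : U ≠ ⊥ := by
    rintro rfl
    rw [finrank_bot] at hU
    omega
  obtain ⟨u, huU, hu0⟩ := (Submodule.ne_bot_iff U).1 hUne
  have hκX : κ ∈ X := by
    have h1 := (hcon u hu0).2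
    have h2 : c (lc b u) = κ := hκ u huU hu0
    rw [hφ] at h2
    rwa [h2] at h1
  obtain ⟨x, hx⟩ := hS κ hκX
  set z := x + a with hz
  have hzφ : ∀ ε, z + lc b ε ≠ 0 ∧ c (z + lc b ε) = κ := by
    intro ε
    have := hx _ (hab ε)
    rw [← hφ, ← add_assoc] at this
    exact this
  have hzn : z ∉ U.map (lc b) := by
    rintro ⟨v, _, hv⟩
    have := (hzφ (-v)).1
    rw [map_neg, hv, add_neg_cancel] at this
    exact this rfl
  have hz0 : z ≠ 0 := fun h => hzn (h ▸ Submodule.zero_mem _)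
  apply hno
  refine ⟨Submodule.span (ZMod 3) {z} ⊔ U.map (lc b), ?_, κ, ?_⟩
  · have h1 : Module.finrank (ZMod 3) (U.map (lc b)) = t := by
      rw [← hU]
      exact (LinearEquiv.finrank_eq (Submodule.equivMapOfInjective (lc b) hinj U)).symm
    have h2 : Submodule.span (ZMod 3) {z} ⊓ U.map (lc b) = ⊥ := by
      rw [eq_bot_iff]
      rintro y ⟨hy1, hy2⟩
      obtain ⟨r, rfl⟩ := Submodule.mem_span_singleton.1 hy1
      rcases z3 r with h | h | h
      · subst h; simp
      · subst h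
        rw [one_smul] at hy2
        exact absurd hy2 hzn
      · subst h
        rw [neg_smul, one_smul] at hy2
        exact absurd ((Submodule.neg_mem_iff _).1 hy2) hzn
    have h3 := Submodule.finrank_sup_add_finrank_inf_eq (Submodule.span (ZMod 3) {z}) (U.map (lc b))
    rw [h2, finrank_bot, finrank_span_singleton hz0, h1] at h3
    omega
  · intro w hw hw0
    obtain ⟨y, hy, v, hv, rfl⟩ := Submodule.mem_sup.1 hw
    obtain ⟨r, rfl⟩ := Submodule.mem_span_singleton.1 hy
    obtain ⟨ε, hε, rfl⟩ := hv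
    rcases z3 r with h | h | h
    · subst h
      rw [zero_smul, zero_add] at hw0 ⊢
      apply hκ ε hε
      rintro rfl
      exact hw0 (map_zero _)
    · subst h
      rw [one_smul]
      exact (hzφ ε).2
    · subst h
      have h1 : (-1 : ZMod 3) • z + lc b ε = -(z + lc b (-ε)) := by
        rw [map_neg, neg_smul, one_smul]; abel
      rw [h1, hc]
      exact (hzφ (-ε)).2

theorem fib {n d : ℕ} (ε : Fin d → ZMod 3) (hε : ε ≠ 0) (f : (Fin n → ZMod 3) → ℕ) :
    (∑ b : Fin d → Fin n → ZMod 3, f (∑ i, ε i • b i)) * 3 ^ n = (∑ y, f y) * (3 ^ n) ^ d := by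
  classical
  have hsurj : Function.Surjective (supersatP_R 3 n d ε) := by
    intro x
    obtain ⟨i, hi⟩ := Function.ne_iff.1 hε
    refine ⟨Pi.single i ((ε i)⁻¹ • x), ?_⟩
    show ∑ k, ε k • (Pi.single i ((ε i)⁻¹ • x) : Fin d → Fin n → ZMod 3) k = x
    rw [Finset.sum_eq_single i]
    · rw [Pi.single_eq_same, smul_smul, mul_inv_cancel₀ hi, one_smul]
    · intro k _ hk
      rw [Pi.single_eq_of_ne hk, smul_zero]
    · intro h; exact absurd (Finset.mem_univ i) h
  have h := supersatP_fib (supersatP_R 3 n d ε) hsurj f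
  have c1 : Fintype.card (Fin n → ZMod 3) = 3 ^ n := by simp [ZMod.card]
  have c2 : Fintype.card (Fin d → Fin n → ZMod 3) = (3 ^ n) ^ d := by simp [ZMod.card]
  rw [c1, c2] at h
  exact h

theorem step {n k d s K : ℕ} (hK : ∀ (s n : ℕ) (A : Finset (Fin n → ZMod 3)),
    3 ^ n ≤ 3 ^ s * A.card → 3 ^ (2 * n) * 3 ≤ 3 ^ (K * (s + 1)) * ∑ h, (cut A h).card)
    (c : (Fin n → ZMod 3) → Fin k) (X : Finset (Fin k)) (A : Finset (Fin n → ZMod 3))
    (hA : 3 ^ n ≤ 3 ^ s * A.card) (hn : Ed K d s + d + 1 ≤ n)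
    (hst : ∀ (a : Fin n → ZMod 3) (b : Fin d → Fin n → ZMod 3),
      (∀ ε : Fin d → ZMod 3, a + ∑ i, ε i • b i ∈ A) →
      ∃ ε : Fin d → ZMod 3, ε ≠ 0 ∧ (∑ i, ε i • b i = 0 ∨ c (∑ i, ε i • b i) ∉ X)) :
    ∃ κ, κ ∉ X ∧ ∃ a ∈ A, 3 ^ n ≤ 3 ^ (Ed K d s + d + 1 + k) *
      (univ.filter (fun y : Fin n → ZMod 3 => y ≠ 0 ∧ c y = κ ∧ a + y ∈ A)).card := by
  classical
  set E := Ed K d s with hE
  have hcard : Fintype.card (Fin n → ZMod 3) = 3 ^ n := by simp [ZMod.card]
  have hpos : ∀ m : ℕ, 0 < 3 ^ m := fun m => pow_pos (by norm_num) m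
  have hflat := flats K hK n d s A hA
  rw [← hE] at hflat
  let g : (Fin n → ZMod 3) → (Fin n → ZMod 3) → ℕ := fun a y =>
    if (a ∈ A ∧ a + y ∈ A ∧ (y = 0 ∨ c y ∉ X)) then 1 else 0
  set P := ∑ a, ∑ y, g a y with hP
  -- many flats
  have h1 : F d A ≤ ∑ ε ∈ univ.filter (fun ε : Fin d → ZMod 3 => ε ≠ 0),
      ∑ a, ∑ b : Fin d → Fin n → ZMod 3, g a (∑ i, ε i • b i) := by
    rw [Finset.sum_comm]
    unfold F
    apply Finset.sum_le_sum
    intro a _
    rw [Finset.sum_comm]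
    apply Finset.sum_le_sum
    intro b _
    split_ifs with hab
    · obtain ⟨ε, hε0, hε⟩ := hst a b hab
      have h2 : (1 : ℕ) = g a (∑ i, ε i • b i) := by
        have haA : a ∈ A := by
          have := hab 0
          simpa using this
        simp only [g]
        rw [if_pos ⟨haA, hab ε, hε⟩]
      rw [h2]
      exact Finset.single_le_sum (f := fun ε : Fin d → ZMod 3 => g a (∑ i, ε i • b i))
        (fun _ _ => Nat.zero_le _) (Finset.mem_filter.2 ⟨Finset.mem_univ _, hε0⟩)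
    · exact Nat.zero_le _
  have h2 : F d A * 3 ^ n ≤ 3 ^ d * (P * (3 ^ n) ^ d) := by
    calc F d A * 3 ^ n ≤ (∑ ε ∈ univ.filter (fun ε : Fin d → ZMod 3 => ε ≠ 0),
          ∑ a, ∑ b : Fin d → Fin n → ZMod 3, g a (∑ i, ε i • b i)) * 3 ^ n :=
          Nat.mul_le_mul_right _ h1
      _ = ∑ ε ∈ univ.filter (fun ε : Fin d → ZMod 3 => ε ≠ 0), P * (3 ^ n) ^ d := by
          rw [Finset.sum_mul]
          apply Finset.sum_congr rfl
          intro ε hε
          rw [Finset.sum_mul, hP, Finset.sum_mul]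
          apply Finset.sum_congr rfl
          intro a _
          exact fib ε (Finset.mem_filter.1 hε).2 (g a)
      _ ≤ _ := by
          rw [Finset.sum_const, smul_eq_mul]
          apply Nat.mul_le_mul_right
          have : Fintype.card (Fin d → ZMod 3) = 3 ^ d := by simp [ZMod.card]
          rw [← this]; exact Finset.card_le_univ _
  have h3 : 3 ^ n * 3 ^ n ≤ 3 ^ (E + d) * P := by
    have e1 : (3 ^ n * 3 ^ n) * (3 ^ n) ^ d ≤ (3 ^ (E + d) * P) * (3 ^ n) ^ d := by
      calc (3 ^ n * 3 ^ n) * (3 ^ n) ^ d = 3 ^ (n * (d + 1)) * 3 ^ n := by ring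
        _ ≤ 3 ^ E * F d A * 3 ^ n := Nat.mul_le_mul_right _ hflat
        _ = 3 ^ E * (F d A * 3 ^ n) := by ring
        _ ≤ 3 ^ E * (3 ^ d * (P * (3 ^ n) ^ d)) := Nat.mul_le_mul_left _ h2
        _ = _ := by ring
    exact Nat.le_of_mul_le_mul_right e1 (pow_pos (hpos n) d)
  -- remove `y = 0`
  let Y : (Fin n → ZMod 3) → Finset (Fin n → ZMod 3) := fun a =>
    univ.filter (fun y => y ≠ 0 ∧ c y ∉ X ∧ a + y ∈ A)
  have h4 : P ≤ 3 ^ n + ∑ a ∈ A, (Y a).card := by
    have e1 : ∀ a, ∑ y, g a y ≤ if a ∈ A then 1 + (Y a).card else 0 := by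
      intro a
      split_ifs with haA
      · have e2 : ∑ y, g a y ≤ ∑ y : Fin n → ZMod 3,
            ((if y = 0 then 1 else 0) + (if (y ≠ 0 ∧ c y ∉ X ∧ a + y ∈ A) then 1 else 0)) := by
          apply Finset.sum_le_sum
          intro y _
          simp only [g]
          by_cases hy : y = 0
          · subst hy
            simp only [true_or, and_true, if_true, ne_eq, not_true_eq_false, false_and, if_false]
            split_ifs <;> omega
          · simp [hy]; split_ifs <;> simp_all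
        refine e2.trans ?_
        rw [Finset.sum_add_distrib, Finset.sum_ite_eq' univ (0 : Fin n → ZMod 3)]
        simp only [Finset.mem_univ, if_true, Y]
        rw [Finset.card_filter]
      · apply le_of_eq
        apply Finset.sum_eq_zero
        intro y _
        simp [g, haA]
    calc P ≤ ∑ a, if a ∈ A then 1 + (Y a).card else 0 := Finset.sum_le_sum fun a _ => e1 a
      _ = ∑ a ∈ A, (1 + (Y a).card) := by rw [Finset.sum_ite_mem, Finset.univ_inter]
      _ = A.card + ∑ a ∈ A, (Y a).card := by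
          rw [Finset.sum_add_distrib, Finset.sum_const, smul_eq_mul, mul_one]
      _ ≤ _ := by
          apply Nat.add_le_add_right
          rw [← hcard]; exact Finset.card_le_univ _
  have h5 : 3 ^ n * 3 ^ n ≤ 3 ^ (E + d + 1) * ∑ a ∈ A, (Y a).card := by
    set Q := ∑ a ∈ A, (Y a).card
    have e1 : 3 ^ (E + d + 1) ≤ 3 ^ n := Nat.pow_le_pow_right (by norm_num) hn
    have e2 : 3 ^ (E + d + 1) = 3 * 3 ^ (E + d) := by ring
    have e3 : 3 ^ n * 3 ^ n ≤ 3 ^ (E + d) * (3 ^ n + Q) := h3.trans (Nat.mul_le_mul_left _ h4)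
    have e4 : 3 * 3 ^ (E + d) * 3 ^ n ≤ 3 ^ n * 3 ^ n := Nat.mul_le_mul_right _ (e2 ▸ e1)
    rw [e2]
    nlinarith
  have hAne : A.Nonempty := by
    rw [Finset.nonempty_iff_ne_empty]
    rintro rfl
    simp at hA
  obtain ⟨a, haA, ha⟩ : ∃ a ∈ A, 3 ^ n ≤ 3 ^ (E + d + 1) * (Y a).card := by
    apply Finset.exists_le_of_sum_le hAne
    rw [← Finset.mul_sum, Finset.sum_const, smul_eq_mul]
    refine le_trans ?_ h5
    apply Nat.mul_le_mul_right
    rw [← hcard]; exact Finset.card_le_univ _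
  -- choose the colour
  have hYcard : (Y a).card = ∑ κ : Fin k, ((Y a).filter (fun y => c y = κ)).card :=
    Finset.card_eq_sum_card_fiberwise (fun _ _ => Finset.mem_coe.2 (Finset.mem_univ _))
  have hYpos : 0 < (Y a).card := by
    by_contra h0
    have : (Y a).card = 0 := by omega
    rw [this, mul_zero] at ha
    exact absurd ha (not_le.2 (hpos n))
  have hkpos : 0 < k := by
    rcases Nat.eq_zero_or_pos k with h | h
    · subst h
      exact (c 0).elim0
    · exact h
  obtain ⟨κ, _, hκ⟩ : ∃ κ ∈ (univ : Finset (Fin k)),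
      (Y a).card ≤ k * ((Y a).filter (fun y => c y = κ)).card := by
    apply Finset.exists_le_of_sum_le ⟨⟨0, hkpos⟩, Finset.mem_univ _⟩
    rw [← Finset.mul_sum, ← hYcard, Finset.sum_const, smul_eq_mul, Finset.card_univ,
      Fintype.card_fin]
  have hne : ((Y a).filter (fun y => c y = κ)).Nonempty := by
    rw [← Finset.card_pos]
    by_contra h0
    have : ((Y a).filter (fun y => c y = κ)).card = 0 := by omega
    rw [this, mul_zero] at hκ
    omega
  obtain ⟨y, hy⟩ := hne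
  have hy' := Finset.mem_filter.1 hy
  have hy'' := (Finset.mem_filter.1 hy'.1).2
  refine ⟨κ, hy'.2 ▸ hy''.2.1, a, haA, ?_⟩
  have hk3 : k ≤ 3 ^ k := (Nat.lt_pow_self (by norm_num)).le
  calc 3 ^ n ≤ 3 ^ (E + d + 1) * (Y a).card := ha
    _ ≤ 3 ^ (E + d + 1) * (k * ((Y a).filter (fun y => c y = κ)).card) := Nat.mul_le_mul_left _ hκ
    _ ≤ 3 ^ (E + d + 1) * (3 ^ k *
        (univ.filter (fun y : Fin n → ZMod 3 => y ≠ 0 ∧ c y = κ ∧ a + y ∈ A)).card) := by
        apply Nat.mul_le_mul_left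
        apply Nat.mul_le_mul hk3
        apply Finset.card_le_card
        intro y hy
        have hy' := Finset.mem_filter.1 hy
        have hy'' := (Finset.mem_filter.1 hy'.1).2
        exact Finset.mem_filter.2 ⟨Finset.mem_univ _, hy''.1, hy'.2, hy''.2.2⟩
    _ = _ := by rw [pow_add 3 (E + d + 1) k]; ring

end Pool.Agent.H255.VSR
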