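import Mathlib
import Pool.Agent.H255.VSR.Step
set_option autoImplicit false

/-!
# Iterating the step
-/

namespace Pool.Agent.H255.VSR

open Finset

/-- density exponents along the iteration -/
def gs (K d k : ℕ) : ℕ → ℕ
  | 0 => 0
  | j + 1 => Ed K d (gs K d k j) + d + 1 + k

theorem le_Ed (K : ℕ) (hK : 1 ≤ K) (d s : ℕ) : s ≤ Ed K d s := by
  induction d generalizing s with
  | zero => simp [Ed]
  | succ d _ =>
    have : s ≤ K * (s + 1) := by nlinarith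
    simp only [Ed]
    omega

theorem gs_mono (K : ℕ) (hK : 1 ≤ K) (d k : ℕ) : Monotone (gs K d k) := by
  apply monotone_nat_of_le_succ
  intro j
  have := le_Ed K hK d (gs K d k j)
  simp only [gs]
  omega

theorem iterate {n k t d K : ℕ} (hK1 : 1 ≤ K)
    (hK : ∀ (s n : ℕ) (A : Finset (Fin n → ZMod 3)),
      3 ^ n ≤ 3 ^ s * A.card → 3 ^ (2 * n) * 3 ≤ 3 ^ (K * (s + 1)) * ∑ h, (cut A h).card)
    (ht : 1 ≤ t) (c : (Fin n → ZMod 3) → Fin k)
    (hc : ∀ v, c (-v) = c v) (hno : ¬ Mono (t + 1) c)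
    (IH : ∀ c' : (Fin d → ZMod 3) → Fin k, (∀ v, c' (-v) = c' v) → Mono t c')
    (hn : gs K d k (k + 1) ≤ n) (j : ℕ) (hj : j ≤ k + 1) :
    ∃ (X : Finset (Fin k)) (A : Finset (Fin n → ZMod 3)), X.card = j ∧ State c X A ∧
      3 ^ n ≤ 3 ^ (gs K d k j) * A.card := by
  classical
  induction j with
  | zero =>
    refine ⟨∅, univ, rfl, fun κ hκ => absurd hκ (Finset.notMem_empty κ), ?_⟩
    have hcard : (univ : Finset (Fin n → ZMod 3)).card = 3 ^ n := by
      rw [Finset.card_univ]; simp [ZMod.card]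
    rw [hcard]; simp [gs]
  | succ j ih =>
    obtain ⟨X, A, hX, hS, hA⟩ := ih (by omega)
    have h1 : gs K d k (j + 1) ≤ gs K d k (k + 1) := gs_mono K hK1 d k hj
    have h2 : Ed K d (gs K d k j) + d + 1 ≤ n := by
      simp only [gs] at h1 hn ⊢
      omega
    obtain ⟨κ, hκ, a, haA, ha⟩ := step hK c X A hA h2
      (fun a b hab => struct ht c hc hno IH X A hS a b hab)
    refine ⟨insert κ X, univ.filter (fun y : Fin n → ZMod 3 => y ≠ 0 ∧ c y = κ ∧ a + y ∈ A),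
      ?_, ?_, ?_⟩
    · rw [Finset.card_insert_of_notMem hκ, hX]
    · intro χ hχ
      rcases Finset.mem_insert.1 hχ with rfl | hχ
      · refine ⟨0, fun y hy => ?_⟩
        have hy' := (Finset.mem_filter.1 hy).2
        rw [zero_add]
        exact ⟨hy'.1, hy'.2.1⟩
      · obtain ⟨x, hx⟩ := hS χ hχ
        refine ⟨x + a, fun y hy => ?_⟩
        have hy' := (Finset.mem_filter.1 hy).2
        rw [add_assoc]
        exact hx _ hy'.2.2
    · exact ha

theorem mono_succ {n k t d K : ℕ} (hK1 : 1 ≤ K)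
    (hK : ∀ (s n : ℕ) (A : Finset (Fin n → ZMod 3)),
      3 ^ n ≤ 3 ^ s * A.card → 3 ^ (2 * n) * 3 ≤ 3 ^ (K * (s + 1)) * ∑ h, (cut A h).card)
    (ht : 1 ≤ t) (c : (Fin n → ZMod 3) → Fin k)
    (hc : ∀ v, c (-v) = c v)
    (IH : ∀ c' : (Fin d → ZMod 3) → Fin k, (∀ v, c' (-v) = c' v) → Mono t c')
    (hn : gs K d k (k + 1) ≤ n) : Mono (t + 1) c := by
  by_contra hno
  obtain ⟨X, A, hX, _, _⟩ := iterate hK1 hK ht c hc hno IH hn (k + 1) le_rfl
  have h1 : X.card ≤ Fintype.card (Fin k) := Finset.card_le_univ _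
  rw [Fintype.card_fin] at h1
  omega

theorem mono_one {n k : ℕ} (hn : 1 ≤ n) (c : (Fin n → ZMod 3) → Fin k)
    (hc : ∀ v, c (-v) = c v) : Mono 1 c := by
  set v : Fin n → ZMod 3 := Pi.single ⟨0, hn⟩ 1 with hv
  have hv0 : v ≠ 0 := by
    rw [hv]; simp
  refine ⟨Submodule.span (ZMod 3) {v}, finrank_span_singleton hv0, c v, ?_⟩
  intro w hw hw0
  obtain ⟨r, rfl⟩ := Submodule.mem_span_singleton.1 hw
  rcases z3 r with h | h | h
  · subst h; simp at hw0
  · subst h; rw [one_smul]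
  · subst h; rw [neg_smul, one_smul, hc]

/-- the dimensions -/
def TT (C : ℕ) : ℕ → ℕ → ℕ
  | 0, _ => 1
  | 1, _ => 1
  | t + 2, k => 2 ^ (C * TT C (t + 1) k * k)

theorem gs_bound (K : ℕ) (hK : 1 ≤ K) (d k j : ℕ) :
    gs K d k j + 1 ≤ ((3 * K) ^ d) ^ j * (1 + j * (d + k + 1)) := by
  induction j with
  | zero => simp [gs]
  | succ j ih =>
    have h1 := Ed_bound K hK d (gs K d k j)
    have h2 : 1 ≤ ((3 * K) ^ d) ^ (j + 1) := Nat.one_le_pow _ _ (Nat.one_le_pow _ _ (by omega))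
    have h3 : d + k + 1 ≤ ((3 * K) ^ d) ^ (j + 1) * (d + k + 1) := Nat.le_mul_of_pos_left _ h2
    calc gs K d k (j + 1) + 1 = (Ed K d (gs K d k j) + 1) + (d + k + 1) := by simp only [gs]; ring
      _ ≤ (3 * K) ^ d * (gs K d k j + 1) + (d + k + 1) := Nat.add_le_add_right h1 _
      _ ≤ (3 * K) ^ d * (((3 * K) ^ d) ^ j * (1 + j * (d + k + 1))) + (d + k + 1) :=
          Nat.add_le_add_right (Nat.mul_le_mul_left _ ih) _
      _ = ((3 * K) ^ d) ^ (j + 1) * (1 + j * (d + k + 1)) + (d + k + 1) := by ring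
      _ ≤ ((3 * K) ^ d) ^ (j + 1) * (1 + j * (d + k + 1)) +
          ((3 * K) ^ d) ^ (j + 1) * (d + k + 1) := Nat.add_le_add_left h3 _
      _ = _ := by ring

theorem gs_le (K : ℕ) (hK : 1 ≤ K) (d k : ℕ) (hd : 1 ≤ d) (hk : 1 ≤ k) :
    gs K d k (k + 1) ≤ 2 ^ ((6 * K + 4) * d * k) := by
  have h1 := gs_bound K hK d k (k + 1)
  have hdk : 1 ≤ d * k := Nat.mul_pos hd hk
  have hdk1 : d ≤ d * k := Nat.le_mul_of_pos_right _ hk
  have hdk2 : k ≤ d * k := Nat.le_mul_of_pos_left _ hd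
  have h2 : ((3 * K) ^ d) ^ (k + 1) ≤ 2 ^ (6 * K * d * k) := by
    have e1 : 3 * K ≤ 2 ^ (3 * K) := (Nat.lt_pow_self (by norm_num)).le
    calc ((3 * K) ^ d) ^ (k + 1) = (3 * K) ^ (d * (k + 1)) := by rw [← pow_mul]
      _ ≤ (2 ^ (3 * K)) ^ (d * (k + 1)) := Nat.pow_le_pow_left e1 _
      _ = 2 ^ (3 * K * (d * (k + 1))) := by rw [← pow_mul]
      _ ≤ _ := by
          apply Nat.pow_le_pow_right (by norm_num)
          have : d * (k + 1) ≤ 2 * (d * k) := by nlinarith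
          calc 3 * K * (d * (k + 1)) ≤ 3 * K * (2 * (d * k)) := Nat.mul_le_mul_left _ this
            _ = _ := by ring
  have h3 : 1 + (k + 1) * (d + k + 1) ≤ 2 ^ (4 * d * k) := by
    have e1 : k + 1 ≤ 2 ^ k := Nat.lt_pow_self (by norm_num)
    have e2 : d + k + 1 ≤ 2 ^ (d + k) := Nat.lt_pow_self (by norm_num)
    have e3 : (k + 1) * (d + k + 1) ≤ 2 ^ k * 2 ^ (d + k) := Nat.mul_le_mul e1 e2
    have e4 : 1 ≤ 2 ^ k * 2 ^ (d + k) := Nat.mul_pos (pow_pos (by norm_num) _) (pow_pos (by norm_num) _)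
    calc 1 + (k + 1) * (d + k + 1) ≤ 2 * (2 ^ k * 2 ^ (d + k)) := by omega
      _ = 2 ^ (k + (d + k) + 1) := by rw [pow_succ, pow_add]; ring
      _ ≤ _ := by
          apply Nat.pow_le_pow_right (by norm_num)
          nlinarith
  calc gs K d k (k + 1) ≤ gs K d k (k + 1) + 1 := Nat.le_succ _
    _ ≤ _ := h1
    _ ≤ 2 ^ (6 * K * d * k) * 2 ^ (4 * d * k) := Nat.mul_le_mul h2 h3
    _ = _ := by rw [← pow_add]; congr 1; ring

theorem TT_pos (C t k : ℕ) : 1 ≤ TT C t k := by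
  match t with
  | 0 => simp [TT]
  | 1 => simp [TT]
  | t + 2 => simp only [TT]; exact Nat.one_le_pow _ _ (by norm_num)

/-- For an absolute constant `C`, every symmetric `k`-colouring of `𝔽₃ⁿ`, `n ≥ TT C t k`, has a
`t`-dimensional subspace whose nonzero vectors all have one colour. -/
theorem main : ∃ C : ℕ, 1 ≤ C ∧ ∀ t k : ℕ, 1 ≤ t → 1 ≤ k → ∀ n, TT C t k ≤ n →
    ∀ c : (Fin n → ZMod 3) → Fin k, (∀ v, c (-v) = c v) → Mono t c := by
  obtain ⟨K, hK1, hK⟩ := lines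
  refine ⟨6 * K + 4, by omega, ?_⟩
  intro t k ht hk
  induction t with
  | zero => omega
  | succ t ih =>
    intro n hn c hc
    rcases Nat.eq_zero_or_pos t with rfl | htpos
    · exact mono_one (by simpa [TT] using hn) c hc
    · obtain ⟨t', rfl⟩ : ∃ t', t = t' + 1 := ⟨t - 1, by omega⟩
      have IH := ih (by omega) (TT (6 * K + 4) (t' + 1) k) le_rfl
      refine mono_succ hK1 hK (by omega) c hc (d := TT (6 * K + 4) (t' + 1) k) IH ?_
      refine le_trans (gs_le K hK1 _ k (TT_pos _ _ _) hk) ?_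
      simpa [TT] using hn

end Pool.Agent.H255.VSR
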